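import Pool.Agent.Helper57_K9.Stmts
import Pool.Agent.Helper24_KF.Du4
import Pool.Agent.Helper9_D1.Inv
import Pool.Agent.Helper55_KF.Fm4

/-!
# Squad K9, row DUN (helper24): the blocks of the normaliser of `Q`

Text: `AWC_K9.md`.
-/

open scoped BigOperators Pointwise

set_option linter.unusedSectionVars false

noncomputable section

namespace Pool.Agent.PP.K9.H24

open Pool.Agent.Helper51_AWC Pool.Agent.Helper79_WRA Pool.Agent.PP Pool.Agent.PP.KF
open Pool.Agent.PP.D1.H27 (clsum_pos clsum_neg)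

section group

variable {K : Type} [Group K] [Finite K] {ℓ : ℕ} [hfact : Fact ℓ.Prime]

/-- two subgroups of order `ℓ ^ n` are conjugate if `ℓ ^ (n + 1)` does not divide the order -/
theorem conj_syl {n : ℕ} {C : Subgroup K} (h : ¬ ℓ ^ (n + 1) ∣ Nat.card C) {V W : Subgroup K}
    (hV : V ≤ C) (hW : W ≤ C) (cV : Nat.card V = ℓ ^ n) (cW : Nat.card W = ℓ ^ n) :
    ∃ c ∈ C, W = conjS c V := by
  have key : ∀ U : Subgroup K, U ≤ C → Nat.card U = ℓ ^ n →
      IsPGroup ℓ (U.subgroupOf C) ∧ ¬ ℓ ∣ (U.subgroupOf C).index := by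
    intro U hU cU
    have h1 : Nat.card (U.subgroupOf C) = ℓ ^ n := by
      rw [Nat.card_congr (Subgroup.subgroupOfEquivOfLe hU).toEquiv, cU]
    refine ⟨IsPGroup.of_card h1, fun h' => h ?_⟩
    obtain ⟨k, hk⟩ := h'
    have h2 := Subgroup.card_mul_index (U.subgroupOf C)
    rw [h1, hk] at h2
    exact ⟨k, by rw [← h2]; ring⟩
  let S : Sylow ℓ C := (key V hV cV).1.toSylow (key V hV cV).2
  let T : Sylow ℓ C := (key W hW cW).1.toSylow (key W hW cW).2
  obtain ⟨c, hc⟩ := MulAction.exists_smul_eq C S T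
  refine ⟨c, c.2, ?_⟩
  have h1 : ((c • S : Sylow ℓ C) : Subgroup C) = W.subgroupOf C := by
    rw [hc]
    rfl
  have h2 : ((c • S : Sylow ℓ C) : Subgroup C) = MulAut.conj c • (V.subgroupOf C) := rfl
  rw [h2] at h1
  ext x
  rw [mem_conjS]
  constructor
  · intro hx
    have h3 : (⟨x, hW hx⟩ : C) ∈ W.subgroupOf C := hx
    rw [← h1, Subgroup.mem_pointwise_smul_iff_inv_smul_mem] at h3
    have h4 : ((MulAut.conj c)⁻¹ • (⟨x, hW hx⟩ : C) : C) = c⁻¹ * ⟨x, hW hx⟩ * c := by
      rw [← map_inv]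
      change c⁻¹ * _ * c⁻¹⁻¹ = _
      rw [inv_inv]
    rw [h4] at h3
    exact h3
  · intro hx
    have h3 : (c⁻¹ * (⟨c * ((c : K)⁻¹ * x * c) * (c : K)⁻¹, by
      exact mul_mem (mul_mem c.2 (hV hx)) (inv_mem c.2)⟩ : C) * c) ∈ V.subgroupOf C := by
      change (c : K)⁻¹ * (c * ((c : K)⁻¹ * x * c) * (c : K)⁻¹) * c ∈ V
      have h5 : (c : K)⁻¹ * (c * ((c : K)⁻¹ * x * c) * (c : K)⁻¹) * c = (c : K)⁻¹ * x * c := by
        group
      rw [h5]
      exact hx
    have h4 : (⟨c * ((c : K)⁻¹ * x * c) * (c : K)⁻¹, by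
      exact mul_mem (mul_mem c.2 (hV hx)) (inv_mem c.2)⟩ : C) ∈
        MulAut.conj c • (V.subgroupOf C) := by
      rw [Subgroup.mem_pointwise_smul_iff_inv_smul_mem, ← map_inv]
      change c⁻¹ * _ * c⁻¹⁻¹ ∈ _
      rw [inv_inv]
      exact h3
    rw [h1] at h4
    have h6 : (c : K) * ((c : K)⁻¹ * x * c) * (c : K)⁻¹ ∈ W := h4
    have h7 : (c : K) * ((c : K)⁻¹ * x * c) * (c : K)⁻¹ = x := by group
    rwa [h7] at h6

/-- normaliser growth -/
theorem growth {n : ℕ} {V : Subgroup K} (cV : Nat.card V = ℓ ^ n)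
    {y : Subgroup.normalizer (V : Set K)} (hV : V ≤ Subgroup.centralizer ({(y : K)} : Set K))
    (hd : ℓ ^ (n + 1) ∣ Nat.card (Subgroup.centralizer ({(y : K)} : Set K))) :
    ℓ ^ (n + 1) ∣
      Nat.card (Subgroup.centralizer ({y} : Set (Subgroup.normalizer (V : Set K)))) := by
  set C := Subgroup.centralizer ({(y : K)} : Set K) with hC
  have h1 : Nat.card (V.subgroupOf C) = ℓ ^ n := by
    rw [Nat.card_congr (Subgroup.subgroupOfEquivOfLe hV).toEquiv, cV]
  have h2 := Sylow.prime_pow_dvd_card_normalizer (p := ℓ) (n := n) (G := C) hd h1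
  refine h2.trans ?_
  have hn : ∀ t : Subgroup.normalizer ((V.subgroupOf C : Subgroup C) : Set C),
      ((t : C) : K) ∈ Subgroup.normalizer (V : Set K) := by
    intro t
    rw [Subgroup.mem_normalizer_iff]
    intro v
    have h3 := Subgroup.mem_normalizer_iff.1 t.2
    constructor
    · intro hv
      exact (h3 ⟨v, hV hv⟩).1 hv
    · intro hv
      have h4 : ((t : C) : K)⁻¹ * (((t : C) : K) * v * ((t : C) : K)⁻¹) * ((t : C) : K) = v := by
        group
      have h5 : v ∈ C := by
        rw [← h4]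
        exact mul_mem (mul_mem (inv_mem (t : C).2) (hV hv)) (t : C).2
      exact (h3 ⟨v, h5⟩).2 hv
  let φ : Subgroup.normalizer ((V.subgroupOf C : Subgroup C) : Set C) →*
      Subgroup.centralizer ({y} : Set (Subgroup.normalizer (V : Set K))) :=
    { toFun := fun t => ⟨⟨((t : C) : K), hn t⟩, by
        rw [Subgroup.mem_centralizer_singleton_iff]
        apply Subtype.ext
        exact Subgroup.mem_centralizer_singleton_iff.1 (t : C).2⟩
      map_one' := rfl
      map_mul' := fun _ _ => rfl }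
  refine Subgroup.card_dvd_of_injective φ ?_
  intro a b hab
  apply Subtype.ext
  apply Subtype.ext
  exact congrArg (fun z => ((z : Subgroup.centralizer
    ({y} : Set (Subgroup.normalizer (V : Set K)))) : Subgroup.normalizer (V : Set K)).1) hab

/-- fusion in the centraliser of a Sylow subgroup -/
theorem fusion {n : ℕ} {Q : Subgroup K} (cQ : Nat.card Q = ℓ ^ n) {y t : K}
    (hy : y ∈ Subgroup.centralizer (Q : Set K)) (ht : t ∈ Subgroup.centralizer (Q : Set K))
    (h : ¬ ℓ ^ (n + 1) ∣ Nat.card (Subgroup.centralizer ({y} : Set K)))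
    {r : K} (hr : t = r * y * r⁻¹) :
    ∃ s ∈ Subgroup.normalizer (Q : Set K), t = s * y * s⁻¹ := by
  have h1 : ¬ ℓ ^ (n + 1) ∣ Nat.card (Subgroup.centralizer ({t} : Set K)) := by
    rw [hr, KF.H24.card_cent_conj]
    exact h
  have hQ : Q ≤ Subgroup.centralizer ({t} : Set K) := by
    intro q hq
    rw [Subgroup.mem_centralizer_singleton_iff]
    exact Subgroup.mem_centralizer_iff.1 ht q hq
  have hrQ : conjS r Q ≤ Subgroup.centralizer ({t} : Set K) := by
    intro x hx
    rw [mem_conjS] at hx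
    rw [Subgroup.mem_centralizer_singleton_iff, hr]
    have h2 := Subgroup.mem_centralizer_iff.1 hy _ hx
    calc x * (r * y * r⁻¹) = r * ((r⁻¹ * x * r) * y) * r⁻¹ := by group
      _ = r * (y * (r⁻¹ * x * r)) * r⁻¹ := by rw [h2]
      _ = (r * y * r⁻¹) * x := by group
  have hc : Nat.card (conjS r Q) = ℓ ^ n := by
    rw [KF.H55.card_conj4, cQ]
  obtain ⟨s, hs, hs2⟩ := conj_syl (C := Subgroup.centralizer ({t} : Set K)) h1 hrQ hQ hc cQ
  refine ⟨s * r, ?_, ?_⟩
  · rw [Subgroup.mem_normalizer_iff]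
    intro q
    have h3 : ∀ x, x ∈ Q ↔ r⁻¹ * (s⁻¹ * x * s) * r ∈ Q := by
      intro x
      conv_lhs => rw [hs2]
      rw [mem_conjS, mem_conjS]
    rw [h3 (s * r * q * (s * r)⁻¹)]
    have h4 : r⁻¹ * (s⁻¹ * (s * r * q * (s * r)⁻¹) * s) * r = q := by group
    rw [h4]
  · have h5 : s * t = t * s := Subgroup.mem_centralizer_singleton_iff.1 hs
    calc t = (t * s) * s⁻¹ := by group
      _ = (s * t) * s⁻¹ := by rw [h5]
      _ = (s * (r * y * r⁻¹)) * s⁻¹ := by rw [← hr]
      _ = s * r * y * (s * r)⁻¹ := by group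

end group

section core

variable {F X : Type} [Field F] [Group X] [Finite X] {ℓ : ℕ}

theorem restr_mulN (hF : GoodF ℓ F) {Q : Subgroup X} (hQ : IsPGroup ℓ Q) {a b : X → F}
    (ha : IsCl a) (hb : IsCl b) :
    (fun t : Subgroup.normalizer (Q : Set X) => br Q (mulF a b) t) =
      mulF (fun t : Subgroup.normalizer (Q : Set X) => br Q a t)
        (fun t : Subgroup.normalizer (Q : Set X) => br Q b t) := by
  rw [H66.br_mulF hF hQ (H66.IsCl.inv ha Q) (H66.IsCl.inv hb Q), H75.mulF_res]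
  intro x hx
  apply H66.br_of_not_mem
  intro h
  exact hx (Subgroup.centralizer_le_normalizer _ h)

theorem restr_iterN (hF : GoodF ℓ F) {Q : Subgroup X} (hQ : IsPGroup ℓ Q) {z b : X → F}
    (hz : IsCl z) (hb : IsCl b) (n : ℕ) : IsCl ((mulF z)^[n] b) ∧
    (fun t : Subgroup.normalizer (Q : Set X) => br Q ((mulF z)^[n] b) t) =
      (mulF (fun t : Subgroup.normalizer (Q : Set X) => br Q z t))^[n]
        (fun t : Subgroup.normalizer (Q : Set X) => br Q b t) := by
  induction n with
  | zero => exact ⟨hb, rfl⟩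
  | succ n ih =>
    rw [Function.iterate_succ_apply', Function.iterate_succ_apply']
    refine ⟨H75.isCl_mulF hz ih.1, ?_⟩
    rw [restr_mulN hF hQ hz ih.1, ih.2]

/-- an invertible element is not nilpotent -/
theorem inv_iter {c z f : X → F} (hc : IsCl c) (h : mulF (mulF c z) f = f) (n : ℕ)
    (h0 : (mulF z)^[n] f = 0) : f = 0 := by
  have hcm : ∀ (m : ℕ) (x : X → F), mulF c ((mulF z)^[m] x) = (mulF z)^[m] (mulF c x) := by
    intro m
    induction m with
    | zero => intro x; rfl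
    | succ m ih =>
      intro x
      rw [Function.iterate_succ_apply, Function.iterate_succ_apply, ih]
      congr 1
      rw [← H20.mulF_assoc, H75.mulF_comm_cl hc z, H20.mulF_assoc]
  induction n with
  | zero => exact h0
  | succ n ih =>
    apply ih
    have h1 : (mulF z)^[n] f = mulF c ((mulF z)^[n + 1] f) := by
      rw [Function.iterate_succ_apply, hcm, ← H20.mulF_assoc, H75.mulF_comm_cl hc z]
      conv_lhs => rw [← h]
      rw [H75.mulF_comm_cl hc z]
    rw [h1, h0, H75.mulF_zero_right]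

end core

attribute [local instance] Ideal.Quotient.field

/-- DUN -/
theorem dun (fmg : FmgStmt) : DunStmt := by
  intro ℓ hfact M _ hM G _ _ e he V hV Q hQ hlt f hf hef
  classical
  by_contra hno
  have hF : GoodF ℓ (FF M) := H50.fld ℓ hfact.out M hM
  have hQN : Q ≤ Subgroup.normalizer (Q : Set G) := Subgroup.le_normalizer
  obtain ⟨QN, hQNdef⟩ : ∃ QN : Subgroup (Subgroup.normalizer (Q : Set G)),
      QN = Q.subgroupOf (Subgroup.normalizer (Q : Set G)) := ⟨_, rfl⟩
  rw [← hQNdef] at hno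
  have hcQN : Nat.card QN = Nat.card Q := by
    rw [hQNdef]
    exact Nat.card_congr (Subgroup.subgroupOfEquivOfLe hQN).toEquiv
  obtain ⟨n, hn⟩ := hQ.exists_card_eq
  have hpN : IsPGroup ℓ QN := IsPGroup.of_card (n := n) (by rw [hcQN, hn])
  have hnorm : QN.Normal := by
    rw [hQNdef]
    exact Subgroup.normal_in_normalizer
  have hbr : br QN f = f := KF.H55.br_idem hF hnorm hpN hf.1
  have hsupp : ∀ t, f t ≠ 0 → t ∈ Subgroup.centralizer (QN : Set (Subgroup.normalizer (Q : Set G))) := by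
    intro t ht
    by_contra h
    apply ht
    rw [← hbr, H66.br_of_not_mem h]
  have hf0 : f ≠ 0 := hf.2.1
  obtain ⟨t0, ht0⟩ : ∃ t, f t ≠ 0 := by
    by_contra h
    push Not at h
    exact hf0 (funext h)
  have hTp : Tp ℓ f QN := by
    refine ⟨hpN, ⟨t0, hsupp t0 ht0, ht0⟩, ?_⟩
    intro P hP hgP
    by_contra hcard
    obtain ⟨t, ht, hft⟩ := hgP
    apply hno
    refine ⟨P ⊔ QN, IsPGroup.to_sup_of_normal_right hP hpN, ⟨t, ?_, hft⟩, ?_⟩
    · have h1 : P ⊔ QN ≤ Subgroup.centralizer ({t} : Set (Subgroup.normalizer (Q : Set G))) := by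
        refine sup_le ?_ ?_
        · intro p hp
          rw [Subgroup.mem_centralizer_singleton_iff]
          exact Subgroup.mem_centralizer_iff.1 ht p hp
        · intro p hp
          rw [Subgroup.mem_centralizer_singleton_iff]
          exact Subgroup.mem_centralizer_iff.1 (hsupp t hft) p hp
      rw [Subgroup.mem_centralizer_iff]
      intro p hp
      exact Subgroup.mem_centralizer_singleton_iff.1 (h1 hp)
    · refine lt_of_le_of_ne le_sup_right fun h => hcard ?_
      have h1 : P ≤ QN := by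
        rw [h]
        exact le_sup_left
      exact Nat.card_le_card_of_injective _ (Subgroup.inclusion_injective h1)
  obtain ⟨_, _, y, hy, hfy, hidx, c, hc, hcy⟩ := fmg ℓ M hM _ f hf QN hTp
  have hyQ : (y : G) ∈ Subgroup.centralizer (Q : Set G) := by
    rw [Subgroup.mem_centralizer_iff]
    intro q hq
    have h1 : (⟨q, hQN hq⟩ : Subgroup.normalizer (Q : Set G)) ∈ QN := by
      rw [hQNdef]
      exact hq
    exact congrArg Subtype.val (Subgroup.mem_centralizer_iff.1 hy _ h1)
  have hQy : Q ≤ Subgroup.centralizer ({(y : G)} : Set G) := by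
    intro q hq
    rw [Subgroup.mem_centralizer_singleton_iff]
    exact Subgroup.mem_centralizer_iff.1 hyQ q hq
  have hQNy : QN ≤ Subgroup.centralizer ({y} : Set (Subgroup.normalizer (Q : Set G))) := by
    intro q hq
    rw [Subgroup.mem_centralizer_singleton_iff]
    exact Subgroup.mem_centralizer_iff.1 hy q hq
  have hN : ¬ ℓ ^ (n + 1) ∣
      Nat.card (Subgroup.centralizer ({y} : Set (Subgroup.normalizer (Q : Set G)))) := by
    intro hd
    apply hidx
    have h1 := Subgroup.card_mul_index (QN.subgroupOf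
      (Subgroup.centralizer ({y} : Set (Subgroup.normalizer (Q : Set G)))))
    rw [Nat.card_congr (Subgroup.subgroupOfEquivOfLe hQNy).toEquiv, hcQN, hn] at h1
    rw [← h1, pow_succ] at hd
    exact Nat.dvd_of_mul_dvd_mul_left (pow_pos hfact.out.pos n) hd
  have hG : ¬ ℓ ^ (n + 1) ∣ Nat.card (Subgroup.centralizer ({(y : G)} : Set G)) := fun hd =>
    hN (growth hn hQy hd)
  -- the class sums
  have hres : (fun t : Subgroup.normalizer (Q : Set G) => br Q (clsum (FF M) ⊤ (y : G)) t) =
      clsum (FF M) ⊤ y := by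
    funext t
    by_cases ht : (t : G) ∈ Subgroup.centralizer (Q : Set G)
    · rw [H66.br_of_mem ht]
      by_cases h : ∃ r : Subgroup.normalizer (Q : Set G), t = r * y * r⁻¹
      · rw [clsum_pos h, clsum_pos]
        obtain ⟨r, hr⟩ := h
        exact ⟨r, congrArg Subtype.val hr⟩
      · rw [clsum_neg h, clsum_neg]
        rintro ⟨r, hr⟩
        apply h
        obtain ⟨s, hs, hs2⟩ := fusion hn hyQ ht hG hr
        exact ⟨⟨s, hs⟩, Subtype.ext hs2⟩
    · rw [H66.br_of_not_mem ht, clsum_neg]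
      rintro ⟨r, hr⟩
      apply ht
      have h1 : (t : G) = r * y * (r : G)⁻¹ := congrArg Subtype.val hr
      rw [Subgroup.mem_centralizer_iff]
      intro q hq
      have h2 : (r : G)⁻¹ * q * r ∈ Q := by
        have h3 := (Subgroup.mem_normalizer_iff.1 (Subgroup.inv_mem _ r.2) q).1 hq
        rwa [inv_inv] at h3
      have h3 := Subgroup.mem_centralizer_iff.1 hyQ _ h2
      rw [h1]
      calc q * (r * y * (r : G)⁻¹) = r * (((r : G)⁻¹ * q * r) * y) * (r : G)⁻¹ := by group
        _ = r * (y * ((r : G)⁻¹ * q * r)) * (r : G)⁻¹ := by rw [h3]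
        _ = (r * y * (r : G)⁻¹) * q := by group
  have hK : IsCl (clsum (FF M) ⊤ (y : G)) := D1H51.clsum_cl _
  obtain ⟨w', hw', hew⟩ := Pool.Agent.PP.D1.H9.inv ℓ (FF M) hF G e (clsum (FF M) ⊤ (y : G)) he hK (by
    intro k h0
    have h5 := (restr_iterN hF hQ hK he.1.1 k).2
    rw [h0, hres] at h5
    have h6 := KF.H24.iter_mul (clsum (FF M) ⊤ y)
      (fun t : Subgroup.normalizer (Q : Set G) => br Q e t) f hef k
    rw [← h5] at h6
    have h7 : (fun t : Subgroup.normalizer (Q : Set G) => br Q (0 : G → FF M) t) = 0 := by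
      funext t
      by_cases ht : (t : G) ∈ Subgroup.centralizer (Q : Set G)
      · rw [H66.br_of_mem ht]
        rfl
      · rw [H66.br_of_not_mem ht]
        rfl
    rw [h7, H75.mulF_zero_left] at h6
    exact hf0 (inv_iter hc hcy k h6.symm))
  obtain ⟨g, hg, heg⟩ := hV.gd
  obtain ⟨k, hk⟩ := hV.pg.exists_card_eq
  have hnk : n < k := by
    rw [hn, hk] at hlt
    exact (Nat.pow_lt_pow_iff_right hfact.out.one_lt).1 hlt
  have hbrK : br V (clsum (FF M) ⊤ (y : G)) = 0 := by
    funext t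
    by_cases ht : t ∈ Subgroup.centralizer (V : Set G)
    · rw [H66.br_of_mem ht, clsum_neg]
      · rfl
      rintro ⟨r, rfl⟩
      apply hG
      rw [← KF.H24.card_cent_conj (y : G) r]
      refine dvd_trans (pow_dvd_pow ℓ hnk) ?_
      rw [← hk]
      apply Subgroup.card_dvd_of_le
      intro v hv
      rw [Subgroup.mem_centralizer_singleton_iff]
      exact Subgroup.mem_centralizer_iff.1 ht v hv
    · exact H66.br_of_not_mem ht
  apply heg
  have h5 : br V e = 0 := by
    rw [← hew, H66.br_mulF hF hV.pg (H66.IsCl.inv he.1.1 V)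
      (H66.IsCl.inv (H75.isCl_mulF hK hw') V),
      H66.br_mulF hF hV.pg (H66.IsCl.inv hK V) (H66.IsCl.inv hw' V), hbrK, H75.mulF_zero_left,
      H75.mulF_zero_right]
  have h6 := congrFun h5 g
  rwa [H66.br_of_mem hg] at h6

end Pool.Agent.PP.K9.H24
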