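import Pool.Agent.Helper24_K9.Dun
import Pool.Agent.Helper97_K9.ORB

/-!
# Squad K9, row DUC (helper24): the blocks of the centraliser of `Q`

Text: `AWC_K9.md`.
-/

open scoped BigOperators Pointwise

set_option linter.unusedSectionVars false

noncomputable section

namespace Pool.Agent.PP.K9.H24

open Pool.Agent.Helper51_AWC Pool.Agent.Helper79_WRA Pool.Agent.PP Pool.Agent.PP.KF
open Pool.Agent.PP.K9.H97 (Ix Bx)

section blocks

variable {F X : Type} [Field F] [Group X] [Finite X]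

theorem mulF_add_l (a b c : X → F) : mulF (a + b) c = mulF a c + mulF b c := by
  funext x
  have := Fintype.ofFinite X
  unfold mulF
  simp only [Pi.add_apply]
  rw [finsum_eq_sum_of_fintype, finsum_eq_sum_of_fintype, finsum_eq_sum_of_fintype,
    ← Finset.sum_add_distrib]
  apply Finset.sum_congr rfl
  intro t _
  ring

/-- a block under an idempotent at which an additive map does not vanish -/
theorem exists_blk {A : Type} [AddCommGroup A] (L : (X → F) → A)
    (hL0 : L 0 = 0) (hL : ∀ a b, L (a + b) = L a + L b) {e : X → F} (he : IsIdem e)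
    (h : L e ≠ 0) : ∃ b : X → F, IsBlk b ∧ mulF e b = b ∧ L b ≠ 0 := by
  have key : ∀ e : X → F, IsIdem e →
      (L e ≠ 0 → ∃ b : X → F, IsBlk b ∧ mulF e b = b ∧ L b ≠ 0) := by
    apply H46.idem_induction
    · intro h
      exact absurd hL0 h
    · intro b hb h
      exact ⟨b, hb, hb.1.2, h⟩
    · intro e₁ e₂ he1 he2 h12 ih1 ih2 h
      have h21 : mulF e₂ e₁ = 0 := by
        rw [H75.mulF_comm_cl he2.1 e₁, h12]
      by_cases h1 : L e₁ = 0
      · have h2 : L e₂ ≠ 0 := by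
          intro h2
          apply h
          rw [hL, h1, h2, add_zero]
        obtain ⟨b, hb, hb2, hb3⟩ := ih2 h2
        refine ⟨b, hb, ?_, hb3⟩
        have h3 : mulF e₁ b = 0 := by
          conv_lhs => rw [← hb2]
          rw [← H20.mulF_assoc, h12, H75.mulF_zero_left]
        rw [mulF_add_l, hb2, h3, zero_add]
      · obtain ⟨b, hb, hb2, hb3⟩ := ih1 h1
        refine ⟨b, hb, ?_, hb3⟩
        have h3 : mulF e₂ b = 0 := by
          conv_lhs => rw [← hb2]
          rw [← H20.mulF_assoc, h21, H75.mulF_zero_left]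
        rw [mulF_add_l, hb2, h3, add_zero]
  exact key e he h

end blocks

section core

variable {F G : Type} [Field F] [Group G] [Finite G] {ℓ : ℕ} [hfact : Fact ℓ.Prime]

theorem core (hF : GoodF ℓ F) {e : G → F} (he : IsIdem e) {V : Subgroup G} (hV : Tp ℓ e V)
    (hcV : Nat.card V = ℓ ^ 2) {Q : Subgroup G} (hcQ : Nat.card Q = ℓ) {N C : Subgroup G}
    (hNdef : N = Subgroup.normalizer (Q : Set G)) (hCdef : C = Subgroup.centralizer (Q : Set G))
    (hdun : ∀ f : N → F, IsBlk f → mulF (fun t : N => br Q e t) f = f →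
      ∃ P : Subgroup N, IsPGroup ℓ P ∧ Gd f P ∧ Q.subgroupOf N < P)
    {g : C → F} (hg : IsBlk g) (heg : mulF (fun t : C => e t) g = g) :
    ∃ P : Subgroup C, Nat.card P = ℓ ^ 2 ∧ Gd g P ∧ Q.subgroupOf C ≤ P := by
  classical
  have hQ : IsPGroup ℓ Q := IsPGroup.of_card (n := 1) (by rw [hcQ, pow_one])
  have hQN : Q ≤ N := by
    rw [hNdef]
    exact Subgroup.le_normalizer
  have hCN : C ≤ N := by
    rw [hNdef, hCdef]
    exact Subgroup.centralizer_le_normalizer _
  have hconjQ : ∀ n ∈ N, ∀ q, q ∈ Q ↔ n * q * n⁻¹ ∈ Q := by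
    intro n hn q
    rw [hNdef] at hn
    exact Subgroup.mem_normalizer_iff.1 hn q
  have hconjC0 : ∀ n ∈ N, ∀ x ∈ C, n * x * n⁻¹ ∈ C := by
    intro n hn x hx
    rw [hCdef, Subgroup.mem_centralizer_iff] at hx ⊢
    intro q hq
    have h1 : n⁻¹ * q * n ∈ Q := by
      have h2 := (hconjQ n⁻¹ (N.inv_mem hn) q).1 hq
      rwa [inv_inv] at h2
    have h2 := hx _ h1
    calc q * (n * x * n⁻¹) = n * ((n⁻¹ * q * n) * x) * n⁻¹ := by group
      _ = n * (x * (n⁻¹ * q * n)) * n⁻¹ := by rw [h2]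
      _ = (n * x * n⁻¹) * q := by group
  have hconjC : ∀ n ∈ N, ∀ x, x ∈ C ↔ n * x * n⁻¹ ∈ C := by
    intro n hn x
    refine ⟨hconjC0 n hn x, fun h => ?_⟩
    have h1 := hconjC0 n⁻¹ (N.inv_mem hn) _ h
    have h2 : n⁻¹ * (n * x * n⁻¹) * n⁻¹⁻¹ = x := by group
    rwa [h2] at h1
  have hNC : N ≤ Subgroup.normalizer (C : Set G) := by
    intro n hn
    rw [Subgroup.mem_normalizer_iff]
    exact hconjC n hn
  -- the function `g` on `G`
  obtain ⟨gh, hgh⟩ : ∃ gh : G → F, gh = H75.ext0 C g := ⟨_, rfl⟩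
  have hghs : ∀ x, x ∉ C → gh x = 0 := by
    rw [hgh]
    exact H75.ext0_supp C g
  have hghC : (fun t : C => gh t) = g := by
    rw [hgh]
    exact funext (H75.ext0_apply C g)
  have hBg : Bx C gh := ⟨hghs, by rw [hghC]; exact hg⟩
  have hbrs : ∀ x, x ∉ C → br Q e x = 0 := by
    intro x hx
    rw [hCdef] at hx
    exact H66.br_of_not_mem hx
  have hbrC : (fun t : C => br Q e t) = fun t : C => e t := by
    funext t
    apply H66.br_of_mem
    rw [← hCdef]
    exact t.2
  have hegh : mulF (br Q e) gh = gh := by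
    apply H75.eq_of_res (H75.mulF_supp C hbrs hghs) hghs
    rw [H75.mulF_res C gh hbrs, hbrC, hghC, heg]
  -- the idempotent of `N`
  have hbrN : ∀ x, x ∉ N → br Q e x = 0 := fun x hx => hbrs x (fun h => hx (hCN h))
  have hinv : H66.Inv Q e := H66.IsCl.inv he.1 Q
  have hIN : IsIdem (fun t : N => br Q e t) := by
    refine ⟨?_, ?_⟩
    · intro x y
      show br Q e ((y : G) * x * (y : G)⁻¹) = br Q e x
      by_cases hx : (x : G) ∈ C
      · have h2 := (hconjC y y.2 x).1 hx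
        rw [hCdef] at hx h2
        rw [H66.br_of_mem hx, H66.br_of_mem h2]
        exact he.1 _ _
      · rw [hbrs _ hx, hbrs]
        intro h
        exact hx ((hconjC y y.2 x).2 h)
    · rw [← H75.mulF_res N (br Q e) hbrN, ← H66.br_mulF hF hQ hinv hinv, he.2]
  have hgN0 : (fun t : N => gh t) ≠ 0 := by
    intro h
    apply hBg.ne
    exact H75.eq_of_res (fun x hx => hghs x (fun h => hx (hCN h))) (fun _ _ => rfl) h
  have hgN : mulF (fun t : N => br Q e t) (fun t : N => gh t) = fun t : N => gh t := by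
    rw [← H75.mulF_res N gh hbrN, hegh]
  obtain ⟨f, hf, hef, hfg⟩ := exists_blk
    (L := fun a : N → F => mulF a (fun t : N => gh t))
    (H75.mulF_zero_left _) (fun a b => mulF_add_l a b _) hIN (by
      show mulF (fun t : N => br Q e t) (fun t : N => gh t) ≠ 0
      rw [hgN]
      exact hgN0)
  obtain ⟨P, hP, hgP, hQP⟩ := hdun f hf hef
  -- the support of `f`
  have hfs : ∀ t : N, f t ≠ 0 → (t : G) ∈ C := by
    have hpN : IsPGroup ℓ (Q.subgroupOf N) := by
      refine IsPGroup.of_card (n := 1) ?_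
      rw [Nat.card_congr (Subgroup.subgroupOfEquivOfLe hQN).toEquiv, hcQ, pow_one]
    have hnorm : (Q.subgroupOf N).Normal := by
      rw [hNdef]
      exact Subgroup.normal_in_normalizer
    have hbr : br (Q.subgroupOf N) f = f := KF.H55.br_idem hF hnorm hpN hf.1
    intro t ht
    by_contra h
    apply ht
    rw [← hbr]
    apply H66.br_of_not_mem
    intro h'
    apply h
    rw [hCdef, Subgroup.mem_centralizer_iff]
    intro q hq
    have h1 : (⟨q, hQN hq⟩ : N) ∈ Q.subgroupOf N := hq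
    exact congrArg Subtype.val (Subgroup.mem_centralizer_iff.1 h' _ h1)
  obtain ⟨t, ht, hft⟩ := hgP
  have htC : (t : G) ∈ C := hfs t hft
  -- the group `P` in `G`
  obtain ⟨P', hP'def⟩ : ∃ P' : Subgroup G, P' = P.map N.subtype := ⟨_, rfl⟩
  have hcP' : Nat.card P' = Nat.card P := by
    rw [hP'def]
    exact Subgroup.card_map_of_injective N.subtype_injective
  obtain ⟨k, hk⟩ := hP.exists_card_eq
  have hPP' : IsPGroup ℓ P' := IsPGroup.of_card (n := k) (by rw [hcP', hk])
  have hcen : ∀ s : N, s ∈ Subgroup.centralizer (P : Set N) →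
      (s : G) ∈ Subgroup.centralizer (P' : Set G) := by
    intro s hs
    rw [Subgroup.mem_centralizer_iff]
    intro x hx
    rw [hP'def] at hx
    obtain ⟨p, hp, rfl⟩ := hx
    exact congrArg Subtype.val (Subgroup.mem_centralizer_iff.1 hs p hp)
  have hGe : Gd e P' := by
    by_contra hcon
    apply hft
    have h1 : br P (fun t : N => br Q e t) = 0 := by
      funext s
      by_cases hs : s ∈ Subgroup.centralizer (P : Set N)
      · rw [H66.br_of_mem hs]
        show br Q e s = 0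
        by_cases hsC : (s : G) ∈ Subgroup.centralizer (Q : Set G)
        · rw [H66.br_of_mem hsC]
          by_contra h
          exact hcon ⟨s, hcen s hs, h⟩
        · exact H66.br_of_not_mem hsC
      · exact H66.br_of_not_mem hs
    have h2 : br P f = 0 := by
      rw [← hef, H66.br_mulF hF hP (H66.IsCl.inv hIN.1 P) (H66.IsCl.inv hf.1.1 P), h1,
        H75.mulF_zero_left]
    have h3 := congrFun h2 t
    rwa [H66.br_of_mem ht] at h3
  have hle := hV.mx P' hPP' hGe
  have hk2 : k = 2 := by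
    have h1 : Nat.card (Q.subgroupOf N) < Nat.card P := by
      have h2 : (Q.subgroupOf N : Set N) ⊂ (P : Set N) := hQP
      have h3 := Set.ncard_lt_ncard h2 (Set.toFinite _)
      rwa [← Nat.card_coe_set_eq, ← Nat.card_coe_set_eq] at h3
    rw [Nat.card_congr (Subgroup.subgroupOfEquivOfLe hQN).toEquiv, hcQ, hk] at h1
    rw [hcP', hk, hcV] at hle
    have h2 : k ≤ 2 := (Nat.pow_le_pow_iff_right hfact.out.one_lt).1 hle
    have h3 : 1 < k := by
      have h4 : ℓ ^ 1 < ℓ ^ k := by rwa [pow_one]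
      exact (Nat.pow_lt_pow_iff_right hfact.out.one_lt).1 h4
    omega
  have hcP2 : Nat.card P' = ℓ ^ 2 := by rw [hcP', hk, hk2]
  have hQP' : Q ≤ P' := by
    intro q hq
    rw [hP'def]
    exact ⟨⟨q, hQN hq⟩, hQP.le hq, rfl⟩
  have hcomm : ∀ v w : P', v * w = w * v := IsPGroup.commutative_of_card_eq_prime_sq hcP2
  have hP'C : P' ≤ C := by
    intro p hp
    rw [hCdef, Subgroup.mem_centralizer_iff]
    intro q hq
    exact congrArg Subtype.val (hcomm ⟨q, hQP' hq⟩ ⟨p, hp⟩)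
  -- the function `f` on `G`
  obtain ⟨fh, hfh⟩ : ∃ fh : G → F, fh = H75.ext0 N f := ⟨_, rfl⟩
  have hfhs : ∀ x, x ∉ N → fh x = 0 := by
    rw [hfh]
    exact H75.ext0_supp N f
  have hfhN : (fun t : N => fh t) = f := by
    rw [hfh]
    exact funext (H75.ext0_apply N f)
  have hBf : Bx N fh := ⟨hfhs, by rw [hfhN]; exact hf⟩
  have hfhC : ∀ x, x ∉ C → fh x = 0 := by
    intro x hx
    by_cases hxN : x ∈ N
    · have h1 : fh x = f ⟨x, hxN⟩ := congrFun hfhN ⟨x, hxN⟩
      rw [h1]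
      by_contra h
      exact hx (hfs _ h)
    · exact hfhs x hxN
  have hIf : Ix C fh := by
    refine ⟨hfhC, ?_, ?_⟩
    · intro x y
      exact hBf.blk.1.1 ⟨x, hCN x.2⟩ ⟨y, hCN y.2⟩
    · rw [← H75.mulF_res C fh hfhC, hBf.mul]
  have hfg' : mulF fh gh = gh := by
    rw [hIf.comm hBg.ix]
    rcases hBg.dich' hIf with h | h
    · exact h
    · exfalso
      apply hfg
      rw [← hfhN, ← H75.mulF_res N gh hfhs, hIf.comm hBg.ix, h]
      rfl
  obtain ⟨γ, hγ, hfγ, hγt⟩ := exists_blk (L := fun a : C → F => a ⟨t, htC⟩) rfl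
    (fun a b => rfl) hIf.idem (by
      show fh t ≠ 0
      have h1 : fh t = f t := congrFun hfhN t
      rw [h1]
      exact hft)
  obtain ⟨γh, hγh⟩ : ∃ γh : G → F, γh = H75.ext0 C γ := ⟨_, rfl⟩
  have hγhs : ∀ x, x ∉ C → γh x = 0 := by
    rw [hγh]
    exact H75.ext0_supp C γ
  have hγhC : (fun t : C => γh t) = γ := by
    rw [hγh]
    exact funext (H75.ext0_apply C γ)
  have hfγ' : mulF fh γh = γh := by
    apply H75.eq_of_res (H75.mulF_supp C hfhC hγhs) hγhs
    rw [H75.mulF_res C γh hfhC, hγhC, hfγ]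
  obtain ⟨n, hn, hnx⟩ := Pool.Agent.PP.K9.H97.orb ℓ F hF G N C hCN hNC fh hfhC
    (by rw [hfhN]; exact hf) γh gh hγhs hghs (by rw [hγhC]; exact hγ) (by rw [hghC]; exact hg)
    hfγ' hfg'
  -- the conjugate
  have hval : gh (n⁻¹ * t * n) ≠ 0 := by
    rw [hnx]
    have h1 : n * (n⁻¹ * (t : G) * n) * n⁻¹ = t := by group
    rw [h1]
    have h2 : γh t = γ ⟨t, htC⟩ := congrFun hγhC ⟨t, htC⟩
    rw [h2]
    exact hγt
  have htn : n⁻¹ * t * n ∈ C := by
    by_contra h
    exact hval (hghs _ h)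
  obtain ⟨W, hW⟩ : ∃ W : Subgroup G, W = conjS n⁻¹ P' := ⟨_, rfl⟩
  have hWmem : ∀ x, x ∈ W ↔ n * x * n⁻¹ ∈ P' := by
    intro x
    rw [hW, mem_conjS, inv_inv]
  have hWC : W ≤ C := by
    intro x hx
    exact (hconjC n hn x).2 (hP'C ((hWmem x).1 hx))
  refine ⟨W.subgroupOf C, ?_, ⟨⟨n⁻¹ * t * n, htn⟩, ?_, ?_⟩, ?_⟩
  · rw [Nat.card_congr (Subgroup.subgroupOfEquivOfLe hWC).toEquiv, hW, KF.H55.card_conj4, hcP2]
  · rw [Subgroup.mem_centralizer_iff]
    intro x hx
    apply Subtype.ext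
    show (x : G) * (n⁻¹ * t * n) = (n⁻¹ * t * n) * x
    have h1 : n * (x : G) * n⁻¹ ∈ P' := (hWmem x).1 hx
    have h2 := Subgroup.mem_centralizer_iff.1 (hcen t ht) _ h1
    calc (x : G) * (n⁻¹ * t * n) = n⁻¹ * ((n * x * n⁻¹) * t) * n := by group
      _ = n⁻¹ * (t * (n * x * n⁻¹)) * n := by rw [h2]
      _ = (n⁻¹ * t * n) * x := by group
  · have h1 : gh (n⁻¹ * t * n) = g ⟨n⁻¹ * t * n, htn⟩ := congrFun hghC ⟨n⁻¹ * t * n, htn⟩
    rw [← h1]
    exact hval
  · intro q hq
    have hq' : (q : G) ∈ Q := hq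
    exact (hWmem q).2 (hQP' ((hconjQ n hn q).1 hq'))

end core

attribute [local instance] Ideal.Quotient.field

/-- DUC -/
theorem duc (dun : DunStmt) : DucStmt := by
  intro ℓ hfact M _ hM G _ _ e he V hV hcV Q hcQ g hg heg
  have hF : GoodF ℓ (FF M) := H50.fld ℓ hfact.out M hM
  have hQ : IsPGroup ℓ Q := IsPGroup.of_card (n := 1) (by rw [hcQ, pow_one])
  have hlt : Nat.card Q < Nat.card V := by
    rw [hcQ, hcV]
    calc ℓ = ℓ ^ 1 := (pow_one ℓ).symm
      _ < ℓ ^ 2 := Nat.pow_lt_pow_right hfact.out.one_lt (by norm_num)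
  exact core hF he.1 hV hcV hcQ rfl rfl
    (fun f hf hef => dun ℓ M hM G e he V hV Q hQ hlt f hf hef) hg heg

end Pool.Agent.PP.K9.H24
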