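import Pool.Agent.Helper57_K9.Stmts3
import Pool.Agent.Helper90_K9.Cnj
import Pool.Agent.Helper88_K9.Val
import Pool.Agent.Helper24_K9.Duc

/-!
# Squad K9, part KL, row TRN (helper24): the blocks of the centraliser of `v` are conjugate

Text: `AWC_KL.md`.
-/

open scoped BigOperators

set_option linter.unusedSectionVars false

noncomputable section

namespace Pool.Agent.PP.K9.H24

open Pool.Agent.Helper51_AWC Pool.Agent.Helper79_WRA Pool.Agent.PP Pool.Agent.PP.KF
open Pool.Agent.PP.K9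

attribute [local instance] Ideal.Quotient.field

theorem push_equiv {F A : Type} [Field F] [Group A] [Finite A] (c : A ≃* A) (a : A → F) (y : A) :
    H75.push c.toMonoidHom a (c y) = a y := by
  classical
  unfold H75.push
  rw [finsum_eq_single _ y]
  · rw [finsum_eq_if]
    exact if_pos rfl
  · intro x hx
    rw [finsum_eq_if, if_neg]
    intro h
    exact hx (c.injective h)

/-- KL_TRN -/
theorem trn (fmg : FmgStmt) (orb : OrbStmt) (psi : PsiStmt) : TrnStmt := by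
  intro ℓ hfact M _ hM G H _ _ _ _ e he v hV π hQ γ γ' hγ hγ' heγ heγ' κ κ' hκ hκ' w hw hw1
  have hF : GoodF ℓ (FF M) := H50.fld ℓ hfact.out M hM
  obtain ⟨V, hVdef⟩ : ∃ V : Subgroup G, V = Subgroup.zpowers v := ⟨_, rfl⟩
  rw [← hVdef] at hV
  have hCdef : Cu v = Subgroup.centralizer (V : Set G) := by
    rw [hVdef]
    exact H88.cu_cent v
  have hCN : Cu v ≤ Subgroup.normalizer (V : Set G) := by
    rw [hCdef]
    exact Subgroup.centralizer_le_normalizer _
  have hconjV : ∀ n ∈ Subgroup.normalizer (V : Set G), ∀ q, q ∈ V ↔ n * q * n⁻¹ ∈ V := by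
    intro n hn q
    exact Subgroup.mem_normalizer_iff.1 hn q
  have hconjC0 : ∀ n ∈ Subgroup.normalizer (V : Set G), ∀ x ∈ Cu v, n * x * n⁻¹ ∈ Cu v := by
    intro n hn x hx
    rw [hCdef, Subgroup.mem_centralizer_iff] at hx ⊢
    intro q hq
    have h1 : n⁻¹ * q * n ∈ V := by
      have h2 := (hconjV n⁻¹ (Subgroup.inv_mem _ hn) q).1 hq
      rwa [inv_inv] at h2
    have h2 := hx _ h1
    calc q * (n * x * n⁻¹) = n * ((n⁻¹ * q * n) * x) * n⁻¹ := by group
      _ = n * (x * (n⁻¹ * q * n)) * n⁻¹ := by rw [h2]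
      _ = (n * x * n⁻¹) * q := by group
  have hconjC : ∀ n ∈ Subgroup.normalizer (V : Set G), ∀ x, x ∈ Cu v ↔ n * x * n⁻¹ ∈ Cu v := by
    intro n hn x
    refine ⟨hconjC0 n hn x, fun h => ?_⟩
    have h1 := hconjC0 n⁻¹ (Subgroup.inv_mem _ hn) _ h
    have h2 : n⁻¹ * (n * x * n⁻¹) * n⁻¹⁻¹ = x := by group
    rwa [h2] at h1
  have hNC : Subgroup.normalizer (V : Set G) ≤ Subgroup.normalizer (Cu v : Set G) := by
    intro n hn
    rw [Subgroup.mem_normalizer_iff]
    exact hconjC n hn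
  obtain ⟨_, ⟨hblkN, _⟩, _⟩ := fmg ℓ M hM G e he V hV
  have hbrs : ∀ x, x ∉ Cu v → br V e x = 0 := by
    intro x hx
    rw [hCdef] at hx
    exact H66.br_of_not_mem hx
  have hbrC : (fun t : Cu v => br V e t) = fun t : Cu v => e t := by
    funext t
    apply H66.br_of_mem
    rw [← hCdef]
    exact t.2
  -- extension by zero
  have hext : ∀ γ : Cu v → FF M, mulF (fun t : Cu v => e t) γ = γ →
      mulF (br V e) (H75.ext0 (Cu v) γ) = H75.ext0 (Cu v) γ := by
    intro γ heγ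
    have hs := H75.ext0_supp (Cu v) γ
    have hr : (fun t : Cu v => H75.ext0 (Cu v) γ t) = γ := funext (H75.ext0_apply (Cu v) γ)
    apply H75.eq_of_res (H75.mulF_supp (Cu v) hbrs hs) hs
    rw [H75.mulF_res (Cu v) (H75.ext0 (Cu v) γ) hbrs, hbrC, hr, heγ]
  have hres : ∀ γ : Cu v → FF M, (fun t : Cu v => H75.ext0 (Cu v) γ t) = γ :=
    fun γ => funext (H75.ext0_apply (Cu v) γ)
  obtain ⟨n, hn, hnx⟩ := orb ℓ (FF M) hF G (Subgroup.normalizer (V : Set G)) (Cu v) hCN hNC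
    (br V e) hbrs hblkN (H75.ext0 (Cu v) γ) (H75.ext0 (Cu v) γ') (H75.ext0_supp (Cu v) γ)
    (H75.ext0_supp (Cu v) γ') (by rw [hres]; exact hγ) (by rw [hres]; exact hγ')
    (hext γ heγ) (hext γ' heγ')
  have hc1 : ∀ c ∈ Cu v, n * c * n⁻¹ ∈ Cu v := fun c hc => (hconjC n hn c).1 hc
  have hc2 : ∀ c ∈ Cu v, n⁻¹ * c * n ∈ Cu v := by
    intro c hc
    have h1 := (hconjC n⁻¹ (Subgroup.inv_mem _ hn) c).1 hc
    rwa [inv_inv] at h1
  obtain ⟨c, hc⟩ : ∃ c : Cu v ≃* Cu v, ∀ t : Cu v, ((c t : Cu v) : G) = n * t * n⁻¹ :=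
    ⟨H90.cj (Cu v) n hc1 hc2, fun _ => rfl⟩
  have hγc : ∀ t : Cu v, γ' t = γ (c t) := by
    intro t
    have h1 := hnx (t : G)
    rw [H75.ext0_apply (Cu v) γ' t, ← hc t, H75.ext0_apply (Cu v) γ (c t)] at h1
    exact h1
  have hpush : H75.push c.toMonoidHom γ' = γ := by
    funext y
    obtain ⟨t, rfl⟩ := c.surjective y
    rw [push_equiv, hγc]
  have hmemV : ∀ z, z ∈ Subgroup.zpowers v ↔ n * z * n⁻¹ ∈ Subgroup.zpowers v := by
    intro z
    rw [← hVdef]
    exact hconjV n hn z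
  obtain ⟨τ, hτ⟩ := H90.exists_desc π hQ.sur c (by
    intro t
    rw [hQ.ker, hQ.ker, hc]
    exact hmemV t)
  -- the characters
  have hcs : Function.Surjective c.toMonoidHom := c.surjective
  have hτs : Function.Surjective τ.toMonoidHom := τ.surjective
  have h1 : κ ∈ IrrE M (H75.push π γ) := by rw [hκ]; exact rfl
  rw [(psi M (Cu v) H π hQ.sur γ hγ.1.1).1] at h1
  have h2 : (fun a => κ (π a)) ∈ IrrE M (H75.push c.toMonoidHom γ') := by
    rw [hpush]
    exact h1.2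
  rw [(psi M (Cu v) (Cu v) c.toMonoidHom hcs γ' hγ'.1.1).1] at h2
  have h3 : (fun h => κ (τ h)) ∈ Irr H :=
    (psi M H H τ.toMonoidHom hτs (fun _ => 0) (fun _ _ => rfl)).2 κ h1.1
  have h4 : (fun h => κ (τ h)) ∈ IrrE M (H75.push π γ') := by
    rw [(psi M (Cu v) H π hQ.sur γ' hγ'.1.1).1]
    refine ⟨h3, ?_⟩
    have h5 : (fun a : Cu v => κ (τ (π a))) = fun a => κ (π (c a)) := by
      funext a
      rw [hτ]
    show (fun a : Cu v => κ (τ (π a))) ∈ IrrE M γ'
    rw [h5]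
    exact h2.2
  have h5 : (fun h => κ (τ h)) = κ' := by
    rw [hκ'] at h4
    exact h4
  refine ⟨n * w * n⁻¹, (hmemV w).1 hw, ?_, fun χ hχ => ?_⟩
  · intro h
    apply hw1
    have h6 : w = n⁻¹ * (n * w * n⁻¹) * n := by group
    rw [h6, h]
    group
  · unfold Av
    rw [← finsum_comp_equiv c.toEquiv (f := fun s : Cu v => ∑ᶠ (_ : Reg ℓ s),
      χ (n * w * n⁻¹ * s) * starRingEnd ℂ (κ (π s)))]
    refine congrArg _ (finsum_congr fun s => ?_)
    have hreg : Reg ℓ (c.toEquiv s) ↔ Reg ℓ s := by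
      unfold Reg
      rw [show (c.toEquiv s) = c s from rfl, MulEquiv.orderOf_eq]
    have hval : χ (n * w * n⁻¹ * ((c.toEquiv s : Cu v) : G)) = χ (w * s) := by
      have e1 : n * w * n⁻¹ * ((c.toEquiv s : Cu v) : G) = (n * (w * s)) * n⁻¹ := by
        rw [show ((c.toEquiv s : Cu v) : G) = n * s * n⁻¹ from hc s]
        group
      rw [e1, irr_mul_comm hχ]
      have e2 : n⁻¹ * (n * (w * (s : G))) = w * s := by group
      rw [e2]
    have hp : κ (π (c.toEquiv s)) = κ' (π s) := by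
      rw [← h5]
      show κ (π (c s)) = κ (τ (π s))
      rw [hτ]
    rw [hval, hp]
    exact finsum_congr_Prop (propext hreg.symm) (fun _ => rfl)

end Pool.Agent.PP.K9.H24
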